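import Pool.Agent.helper26.P3.DiscMap
import Pool.Agent.helper39.P3.WBasic
import Pool.Agent.helper67.P3.PSD
import Pool.Agent.helper85.P3.DiscExists
import Pool.Agent.helper56.P3.Util

/-!
# P3, module D4: two type II cycles
-/

namespace Pool.Agent.helper56.P3

open Finset Pool.Agent.helper56.Per

namespace D4aux

section Rho

variable {K : Type*} [Field K] {Γ : Type*} [LinearOrderedCommGroupWithZero Γ] (v : Valuation K Γ)

/-- `max (1, |x|)` -/
def mx (x : K) : Γ := max 1 (v x)

theorem mx_pos (x : K) : 0 < mx v x := lt_of_lt_of_le zero_lt_one (le_max_left _ _)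

theorem one_le_mx (x : K) : 1 ≤ mx v x := le_max_left _ _

theorem le_mx (x : K) : v x ≤ mx v x := le_max_right _ _

theorem mx_inv {x : K} (hx : x ≠ 0) : mx v x⁻¹ * v x = mx v x := by
  have h0 : 0 < v x := zero_lt_iff.2 ((v.ne_zero_iff).2 hx)
  unfold mx
  rw [map_inv₀]
  rcases le_total (v x) 1 with h | h
  · rw [max_eq_left h, max_eq_right ((one_le_inv₀ h0).2 h), inv_mul_cancel₀ h0.ne']
  · rw [max_eq_right h, max_eq_left (inv_le_one_of_one_le₀ h), one_mul]

/-- the chordal distance -/
def rho (x y : K) : Γ := v (x - y) / (mx v x * mx v y)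

theorem rho_comm (x y : K) : rho v x y = rho v y x := by
  unfold rho
  rw [Valuation.map_sub_swap, mul_comm]

theorem rho_self (x : K) : rho v x x = 0 := by
  unfold rho
  rw [sub_self, map_zero, zero_div]

theorem rho_le_one (x y : K) : rho v x y ≤ 1 := by
  unfold rho
  have h : 0 < mx v x * mx v y := mul_pos (mx_pos v x) (mx_pos v y)
  rw [div_le_one₀ h]
  refine (v.map_sub x y).trans ?_
  apply max_le
  · exact (le_mx v x).trans (le_mul_of_one_le_right' (one_le_mx v y))
  · exact (le_mx v y).trans (le_mul_of_one_le_left' (one_le_mx v x))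

theorem rho_ultra (x y z : K) : rho v x z ≤ max (rho v x y) (rho v y z) := by
  have hx := mx_pos v x
  have hy := mx_pos v y
  have hz := mx_pos v z
  have hxy : rho v x y * (mx v x * mx v y * mx v z) = v (x - y) * mx v z := by
    unfold rho
    rw [← mul_assoc, div_mul_cancel₀ _ (mul_pos hx hy).ne']
  have hyz : rho v y z * (mx v x * mx v y * mx v z) = v (y - z) * mx v x := by
    unfold rho
    rw [mul_comm (mx v x) (mx v y), mul_assoc (mx v y), mul_comm (mx v x) (mx v z),
      ← mul_assoc (mx v y), ← mul_assoc, div_mul_cancel₀ _ (mul_pos hy hz).ne']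
  have hxz : rho v x z * (mx v x * mx v y * mx v z) = v (x - z) * mx v y := by
    unfold rho
    rw [mul_assoc (mx v x), mul_comm (mx v y), ← mul_assoc (mx v x), ← mul_assoc,
      div_mul_cancel₀ _ (mul_pos hx hz).ne']
  have hpos : 0 < mx v x * mx v y * mx v z := mul_pos (mul_pos hx hy) hz
  rw [← mul_le_mul_iff_left₀ hpos, hxz]
  have hmax : max (rho v x y) (rho v y z) * (mx v x * mx v y * mx v z) =
      max (v (x - y) * mx v z) (v (y - z) * mx v x) := by
    rw [← hxy, ← hyz]
    rcases le_total (rho v x y) (rho v y z) with h | h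
    · rw [max_eq_right h, max_eq_right (mul_le_mul_left h _)]
    · rw [max_eq_left h, max_eq_left (mul_le_mul_left h _)]
  rw [hmax]
  have h1 : v (x - z) * 1 ≤ max (v (x - y) * mx v z) (v (y - z) * mx v x) := by
    rw [mul_one]
    have e : x - z = (x - y) + (y - z) := by ring
    rw [e]
    refine (v.map_add _ _).trans (max_le_max ?_ ?_)
    · exact le_mul_of_one_le_right' (one_le_mx v z)
    · exact le_mul_of_one_le_right' (one_le_mx v x)
  have h2 : v (x - z) * v y ≤ max (v (x - y) * mx v z) (v (y - z) * mx v x) := by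
    rw [← map_mul]
    have e : (x - z) * y = (x - y) * z + (y - z) * x := by ring
    rw [e]
    refine (v.map_add _ _).trans (max_le_max ?_ ?_)
    · rw [map_mul]; exact mul_le_mul_right (le_mx v z) _
    · rw [map_mul]; exact mul_le_mul_right (le_mx v x) _
  show v (x - z) * max 1 (v y) ≤ _
  rcases le_total 1 (v y) with h | h
  · rw [max_eq_right h]; exact h2
  · rw [max_eq_left h]; exact h1

theorem rho_inv_right (x : K) {y : K} (hy : y ≠ 0) :
    rho v x y⁻¹ = v (1 - x * y) / (mx v x * mx v y) := by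
  have h0 : v y ≠ 0 := (v.ne_zero_iff).2 hy
  unfold rho
  have e1 : x - y⁻¹ = -(1 - x * y) * y⁻¹ := by field_simp; ring
  rw [e1, map_mul, Valuation.map_neg, map_inv₀, ← mx_inv v hy]
  rw [← mul_assoc, div_mul_eq_div_div (v (1 - x * y)), ← div_eq_mul_inv, div_right_comm]

theorem rho_inv {x y : K} (hx : x ≠ 0) (hy : y ≠ 0) : rho v x⁻¹ y⁻¹ = rho v x y := by
  have h0 : v x ≠ 0 := (v.ne_zero_iff).2 hx
  rw [rho_inv_right v _ hy]
  unfold rho
  have e1 : 1 - x⁻¹ * y = (x - y) * x⁻¹ := by field_simp
  rw [e1, map_mul, map_inv₀, ← mx_inv v hx]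
  rw [div_eq_mul_inv, div_eq_mul_inv, mul_inv, mul_inv, mul_inv]
  rw [mul_assoc (v (x - y)), mul_comm (mx v x⁻¹)⁻¹ (v x)⁻¹, mul_assoc (v x)⁻¹]

theorem rho_inv_left {x y : K} (hx : x ≠ 0) (hy : y ≠ 0) : rho v x⁻¹ y = rho v x y⁻¹ := by
  have := rho_inv v hx (inv_ne_zero hy)
  rwa [inv_inv] at this

end Rho

section Prod

variable {Γ : Type*} [LinearOrderedCommGroupWithZero Γ]

/-- product of a periodic function over `n` periods -/
theorem prod_periodic {M : Type*} [CommMonoid M] (G : ℕ → M) (m j0 n : ℕ) (hG : ∀ j, G (j + m) = G j) :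
    ∏ s ∈ range (n * m), G (j0 + s) = (∏ j ∈ range m, G j) ^ n := by
  have hshift : ∀ i, ∏ j ∈ range m, G (i + j) = ∏ j ∈ range m, G j := by
    intro i
    induction i with
    | zero => simp
    | succ i ih =>
      rw [← ih]
      have h1 := Finset.prod_range_succ (fun j => G (i + j)) m
      have h2 := Finset.prod_range_succ' (fun j => G (i + j)) m
      rcases Nat.eq_zero_or_pos m with hm | hm
      · subst hm; simp
      · obtain ⟨m', rfl⟩ : ∃ m', m = m' + 1 := ⟨m - 1, by omega⟩
        rw [Finset.prod_range_succ (fun j => G (i + 1 + j)) m',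
          Finset.prod_range_succ' (fun j => G (i + j)) m']
        have e1 : G (i + 1 + m') = G (i + 0) := by
          rw [add_zero, ← hG i]
          congr 1
          omega
        rw [e1]
        congr 1
        apply Finset.prod_congr rfl
        intro j _
        congr 1
        omega
  induction n with
  | zero => simp
  | succ n ih =>
    rw [add_mul, one_mul, Finset.prod_range_add, ih, pow_succ]
    congr 1
    have := hshift (j0 + n * m)
    rw [← this]
    apply Finset.prod_congr rfl
    intro j _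
    congr 1
    omega

end Prod

section Main

variable {K : Type*} [Field K] {b c ε : K} {n m q : ℕ} {lam lam' : K} {W W' : ℕ → K}
variable {Γ : Type*} [LinearOrderedCommGroupWithZero Γ] {v : Valuation K Γ}

/-- flowing a point of the intersection of two discs -/
theorem flow {r : ℕ → Γ} {i0 : ℕ} (T : TwoCyc v b c q n lam ε W) (D : Disc v c n W ε r i0)
    {z : K} {i j : ℕ} (hi : v (z - W i) ≤ r i) (hj : v (z - W j) ≤ r j) (l : ℕ) :
    ∃ z' : K, v (z' - W (i + l)) ≤ r (i + l) ∧ v (z' - W (j + l)) ≤ r (j + l) := by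
  induction l with
  | zero => exact ⟨z, hi, hj⟩
  | succ l ih =>
    obtain ⟨z', h1, h2⟩ := ih
    exact ⟨_, (D.map v T h1).2.2, (D.map v T h2).2.2⟩

theorem r_per {r : ℕ → Γ} {i0 : ℕ} (D : Disc v c n W ε r i0) (i l : ℕ) :
    r (i + n * l) = r i := by
  induction l with
  | zero => simp
  | succ l ih => rw [mul_add, mul_one, ← add_assoc, D.per, ih]

theorem W_per (h : WCyc b c n lam W) (i l : ℕ) : W (i + n * l) = W i := by
  induction l with
  | zero => simp
  | succ l ih => rw [mul_add, mul_one, ← add_assoc, h.per, ih]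

/-- if `x` lies in disc `i` and `1/x` lies in disc `j` then both discs coincide and `W_i` is
near-critical -/
theorem opp {r : ℕ → Γ} {i0 : ℕ} (T : TwoCyc v b c q n lam ε W) (D : Disc v c n W ε r i0)
    {x : K} (hx : x ≠ 0) {i j : ℕ} (hi : v (x - W i) ≤ r i) (hj : v (x⁻¹ - W j) ≤ r j) :
    r i = r j ∧ v (W i - W j) ≤ r i ∧ v (W i) = 1 ∧ v (W j) = 1 ∧ v (W i ^ 2 - 1) = r i := by
  have h1 := (D.map v T hi).2.2
  have h2 := (D.map v T hj).2.2
  rw [inv_inv] at h2
  have e0 : x⁻¹ + x = x + x⁻¹ := add_comm _ _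
  rw [e0] at h2
  obtain ⟨z, hz1, hz2⟩ := flow T D h1 h2 (n - 1)
  have hn := T.cyc.npos
  have e1 : i + 1 + (n - 1) = i + n := by omega
  have e2 : j + 1 + (n - 1) = j + n := by omega
  rw [e1, T.cyc.per, D.per] at hz1
  rw [e2, T.cyc.per, D.per] at hz2
  have hWW : v (W i - W j) ≤ max (r i) (r j) := by
    have e : W i - W j = (z - W j) - (z - W i) := by ring
    rw [e]
    refine (v.map_sub _ _).trans (max_le ?_ ?_)
    · exact hz2.trans (le_max_right _ _)
    · exact hz1.trans (le_max_left _ _)
  have hr := D.sep v T hWW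
  have hWW' : v (W i - W j) ≤ r i := by rwa [← hr, max_self] at hWW
  have hxx : v (x - x⁻¹) ≤ r i := by
    have e : x - x⁻¹ = (x - W i) - (x⁻¹ - W j) + (W i - W j) := by ring
    rw [e]
    refine (v.map_add _ _).trans (max_le ?_ hWW')
    refine (v.map_sub _ _).trans (max_le hi ?_)
    rw [hr]; exact hj
  have hlt : v (x - x⁻¹) < 1 := hxx.trans_lt (D.lt_one i)
  have hx0 : 0 < v x := zero_lt_iff.2 ((v.ne_zero_iff).2 hx)
  have hvx : v x = 1 := by
    by_contra hne
    rcases lt_or_gt_of_ne hne with h | h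
    · have h3 : 1 < v x⁻¹ := v_inv_gt_one hx h
      have h4 : v (x - x⁻¹) = v x⁻¹ := by
        exact Valuation.map_sub_eq_of_lt_right v (h.trans h3)
      rw [h4] at hlt
      exact lt_asymm hlt h3
    · have h3 : v x⁻¹ < 1 := v_inv_lt_one h
      have h4 : v (x - x⁻¹) = v x := by
        exact Valuation.map_sub_eq_of_lt_left v (h3.trans h)
      rw [h4] at hlt
      exact lt_asymm hlt h
  have hvi : v (W i) = 1 := by
    have := (D.map v T hi).1
    rw [← this, hvx]
  have hvj : v (W j) = 1 := by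
    have := (D.map v T hj).1
    rw [← this, map_inv₀, hvx, inv_one]
  have hxsq : v (x ^ 2 - 1) ≤ r i := by
    have e : x ^ 2 - 1 = x * (x - x⁻¹) := by field_simp
    rw [e, map_mul, hvx, one_mul]
    exact hxx
  have hWsq : v (W i ^ 2 - 1) ≤ r i := by
    have e : W i ^ 2 - 1 = (x ^ 2 - 1) - (x - W i) * (x + W i) := by ring
    rw [e]
    refine (v.map_sub _ _).trans (max_le hxsq ?_)
    rw [map_mul]
    have h5 : v (x + W i) ≤ 1 := (v.map_add _ _).trans (max_le hvx.le hvi.le)
    calc v (x - W i) * v (x + W i) ≤ r i * 1 := mul_le_mul' hi h5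
      _ = r i := mul_one _
  have hWlt : v (W i ^ 2 - 1) < 1 := hWsq.trans_lt (D.lt_one i)
  have hnear := T.near i hvi hWlt
  have hle := D.near_le i hvi hWlt
  have hε0 : ε ≠ 0 := by
    intro h
    have := T.e2
    rw [h] at this
    norm_num at this
  have hvε : v ε = 1 := by
    have h6 : v ε ^ 2 = 1 := by rw [← map_pow, T.e2, map_one]
    exact (pow_eq_one_iff_of_nonneg zero_le two_ne_zero).1 h6
  have h2 : v (2 * ε) = 1 := by
    have := T.cz 2 two_ne_zero
    rw [map_mul, hvε, mul_one]
    exact_mod_cast this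
  have hsum : v (W i + ε) = 1 := by
    have e : W i + ε - 2 * ε = W i - ε := by ring
    exact v_eq_one_of_sub (by rw [e]; exact hnear) h2
  have hWe : v (W i ^ 2 - 1) = v (W i - ε) := by
    have e : W i ^ 2 - 1 = (W i - ε) * (W i + ε) := by
      rw [← T.e2]; ring
    rw [e, map_mul, hsum, mul_one]
  refine ⟨hr, hWW', hvi, hvj, le_antisymm hWsq ?_⟩
  rw [hWe]
  exact hle

theorem mx_le_of_close {x y : K} (h : v (x - y) < 1) : mx v x ≤ mx v y := by
  unfold mx
  apply max_le (le_max_left _ _)
  have e : x = (x - y) + y := by ring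
  rw [e]
  refine (v.map_add _ _).trans (max_le ?_ (le_max_right _ _))
  exact h.le.trans (le_max_left _ _)

theorem mx_eq_of_close {x y : K} (h : v (x - y) < 1) : mx v x = mx v y :=
  le_antisymm (mx_le_of_close h) (mx_le_of_close (by rwa [Valuation.map_sub_swap]))

/-- a point in the chordal disc is in the disc -/
theorem close {a x : K} {R : Γ} (hR : R < 1) (h : rho v a x ≤ R / mx v a ^ 2) :
    v (x - a) ≤ R := by
  have ha := mx_pos v a
  have hx := mx_pos v x
  have h1 : v (a - x) * mx v a ≤ R * mx v x := by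
    have h2 : rho v a x * (mx v a ^ 2 * mx v x) ≤ R / mx v a ^ 2 * (mx v a ^ 2 * mx v x) :=
      mul_le_mul_left h _
    have e1 : rho v a x * (mx v a ^ 2 * mx v x) = v (a - x) * mx v a := by
      unfold rho
      rw [show mx v a ^ 2 * mx v x = (mx v a * mx v x) * mx v a by rw [sq]; ac_rfl,
        ← mul_assoc, div_mul_cancel₀ _ (mul_pos ha hx).ne']
    have e2 : R / mx v a ^ 2 * (mx v a ^ 2 * mx v x) = R * mx v x := by
      rw [← mul_assoc, div_mul_cancel₀ _ (pow_pos ha 2).ne']
    rwa [e1, e2] at h2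
  rw [Valuation.map_sub_swap]
  rcases lt_or_ge (v (a - x)) 1 with h3 | h3
  · have h4 := mx_eq_of_close h3
    rw [← h4] at h1
    exact le_of_mul_le_mul_right h1 ha
  · exfalso
    have h5 : mx v x ≤ max (mx v a) (v (a - x)) := by
      apply max_le
      · exact h3.trans (le_max_right _ _)
      · have e : x = a - (a - x) := by ring
        rw [e]
        refine (v.map_sub _ _).trans (max_le_max (le_mx v a) ?_)
        rw [← e]
    have h6 : max (mx v a) (v (a - x)) ≤ v (a - x) * mx v a := by
      apply max_le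
      · exact le_mul_of_one_le_left' h3
      · exact le_mul_of_one_le_right' (one_le_mx v a)
    have h7 : mx v x ≤ R * mx v x := h5.trans (h6.trans h1)
    have h8 : R * mx v x < 1 * mx v x := mul_lt_mul_of_pos_right hR hx
    rw [one_mul] at h8
    exact absurd h7 (not_le.2 h8)

end Main

section Data

variable {K : Type*} [Field K] {b c ε : K} {n m q : ℕ} {lam lam' : K} {W W' : ℕ → K}
variable {Γ : Type*} [LinearOrderedCommGroupWithZero Γ] {v : Valuation K Γ}

/-- the signed points -/
noncomputable def pp (A : ℕ → K) (x : ℕ × Bool) : K := if x.2 then A x.1 else (A x.1)⁻¹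

/-- the signs -/
def ww (x : ℕ × Bool) : ℤ := if x.2 then 1 else -1

/-- the modified chordal distance -/
noncomputable def dd (v : Valuation K Γ) (A : ℕ → K) (R : ℕ → Γ) (x y : ℕ × Bool) : Γ :=
  max (rho v (pp A x) (pp A y)) (max (R x.1 / mx v (A x.1) ^ 2) (R y.1 / mx v (A y.1) ^ 2))

variable {A B : ℕ → K} {R : ℕ → Γ}

theorem rad_pos (hR : ∀ s, 0 < R s) (s : ℕ) : 0 < R s / mx v (A s) ^ 2 :=
  div_pos (hR s) (pow_pos (mx_pos v _) 2)

theorem rad_le (s : ℕ) : R s / mx v (A s) ^ 2 ≤ R s := by
  rw [div_le_iff₀ (pow_pos (mx_pos v _) 2)]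
  exact le_mul_of_one_le_right' (one_le_pow_of_one_le' (one_le_mx v _) 2)

theorem dd_symm (x y : ℕ × Bool) : dd v A R x y = dd v A R y x := by
  unfold dd
  rw [rho_comm, max_comm (R x.1 / _)]

theorem dd_self (x : ℕ × Bool) : dd v A R x x = R x.1 / mx v (A x.1) ^ 2 := by
  unfold dd
  rw [rho_self, max_self, max_eq_right (zero_le)]

theorem dd_tt (s s' : ℕ) : dd v A R (s, true) (s', true) =
    max (rho v (A s) (A s')) (max (R s / mx v (A s) ^ 2) (R s' / mx v (A s') ^ 2)) := rfl

theorem dd_tf (s s' : ℕ) : dd v A R (s, true) (s', false) =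
    max (rho v (A s) (A s')⁻¹) (max (R s / mx v (A s) ^ 2) (R s' / mx v (A s') ^ 2)) := rfl

theorem dd_ff (hA : ∀ s, A s ≠ 0) (s s' : ℕ) : dd v A R (s, false) (s', false) =
    dd v A R (s, true) (s', true) := by
  show max (rho v (A s)⁻¹ (A s')⁻¹) _ = _
  rw [rho_inv v (hA s) (hA s')]
  rfl

theorem dd_ft (hA : ∀ s, A s ≠ 0) (s s' : ℕ) : dd v A R (s, false) (s', true) =
    dd v A R (s, true) (s', false) := by
  show max (rho v (A s)⁻¹ (A s')) _ = _
  rw [rho_inv_left v (hA s) (hA s')]
  rfl

/-- the positivity statement in our situation -/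
theorem psd_main (hA : ∀ s, A s ≠ 0) (hR : ∀ s, 0 < R s) (hR1 : ∀ s, R s < 1) (N : ℕ) {s0 : ℕ}
    (hs0 : s0 < N)
    (hcls : ∀ s' < N, ¬ rho v (A s0) (A s')⁻¹ ≤ R s0 / mx v (A s0) ^ 2) :
    ∏ s ∈ range N, ∏ s' ∈ range N,
      (dd v A R (s, true) (s', true) / dd v A R (s, true) (s', false)) < 1 := by
  have hdpos : ∀ x y, 0 < dd v A R x y := fun x y =>
    lt_of_lt_of_le (rad_pos hR x.1) ((le_max_left _ _).trans (le_max_right _ _))
  have hpsd := psd_lt (range N ×ˢ (Finset.univ : Finset Bool)) (dd v A R) ww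
    (fun x _ y _ => hdpos x y)
    (fun x _ y _ => max_le (rho_le_one v _ _) (max_le ((rad_le _).trans (hR1 _).le)
      ((rad_le _).trans (hR1 _).le)))
    (fun x _ y _ => dd_symm x y)
    (fun x _ y _ z _ => by
      unfold dd
      apply max_le
      · refine (rho_ultra v _ (pp A y) _).trans (max_le_max (le_max_left _ _) (le_max_left _ _))
      · apply max_le
        · exact ((le_max_left _ _).trans (le_max_right _ _)).trans (le_max_left _ _)
        · exact ((le_max_right _ _).trans (le_max_right _ _)).trans (le_max_right _ _))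
    (fun x _ y _ => by
      rw [dd_self]
      exact (le_max_left _ _).trans (le_max_right _ _))
    (x0 := (s0, true)) (by simp [hs0])
    (by
      rw [dd_self]
      exact (rad_le _).trans_lt (hR1 _))
    (by
      have hall : ∀ y ∈ (range N ×ˢ (Finset.univ : Finset Bool)).filter
          (fun y => dd v A R (s0, true) y ≤ dd v A R (s0, true) (s0, true)), ww y = 1 := by
        intro y hy
        rw [Finset.mem_filter] at hy
        obtain ⟨hy1, hy2⟩ := hy
        obtain ⟨s', b'⟩ := y
        cases b'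
        · exfalso
          rw [dd_self] at hy2
          have hs' : s' < N := by simpa using hy1
          exact hcls s' hs' ((le_max_left _ _).trans hy2)
        · rfl
      rw [Finset.sum_congr rfl hall, Finset.sum_const, nsmul_eq_mul, mul_one]
      have hmem : (s0, true) ∈ (range N ×ˢ (Finset.univ : Finset Bool)).filter
          (fun y => dd v A R (s0, true) y ≤ dd v A R (s0, true) (s0, true)) := by
        rw [Finset.mem_filter]
        exact ⟨by simp [hs0], le_rfl⟩
      have hpos := Finset.card_pos.2 ⟨_, hmem⟩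
      exact_mod_cast hpos.ne')
  rw [Finset.prod_product] at hpsd
  have hin : ∀ x ∈ range N, ∏ b' : Bool, ∏ y ∈ range N ×ˢ (Finset.univ : Finset Bool),
      dd v A R (x, b') y ^ (ww (x, b') * ww y) =
      (∏ s' ∈ range N, (dd v A R (x, true) (s', true) / dd v A R (x, true) (s', false))) ^ 2 := by
    intro x _
    rw [Fintype.prod_bool, sq]
    congr 1
    · rw [Finset.prod_product]
      apply Finset.prod_congr rfl
      intro s' _
      rw [Fintype.prod_bool]
      have e1 : ww (x, true) * ww (s', true) = 1 := rfl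
      have e2 : ww (x, true) * ww (s', false) = -1 := rfl
      rw [e1, e2, zpow_one, zpow_neg_one, div_eq_mul_inv]
    · rw [Finset.prod_product]
      apply Finset.prod_congr rfl
      intro s' _
      rw [Fintype.prod_bool]
      have e1 : ww (x, false) * ww (s', true) = -1 := rfl
      have e2 : ww (x, false) * ww (s', false) = 1 := rfl
      rw [e1, e2, zpow_one, zpow_neg_one, div_eq_mul_inv, dd_ff hA, dd_ft hA, mul_comm]
  rw [Finset.prod_congr rfl hin, Finset.prod_pow] at hpsd
  exact (pow_lt_one_iff_of_nonneg (zero_le) two_ne_zero).1 hpsd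

end Data

end D4aux

open D4aux

section D4

variable {K : Type*} [Field K] {b c ε : K} {n m q : ℕ} {lam lam' : K} {W W' : ℕ → K}
variable {Γ : Type*} [LinearOrderedCommGroupWithZero Γ] (v : Valuation K Γ)

theorem II_II_neg (T : TwoCyc v b c q n lam ε W) (T' : TwoCyc v b c q m lam' ε W')
    (hne : ∀ i j, W i ≠ W' j) : v (∏ i ∈ range n, ∏ j ∈ range m, EW (W i) (W' j)) < 1 := by
  obtain ⟨r, i0, D⟩ := disc_exists v T.ctx T.cz T.rot T.cyc T.l1 T.II T.e2 T.near
  obtain ⟨r', j0, D'⟩ := disc_exists v T'.ctx T'.cz T'.rot T'.cyc T'.l1 T'.II T'.e2 T'.near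
  have hpair := Disc.pair v T T' D D'
  set A : ℕ → K := fun s => W (i0 + s) with hA
  set B : ℕ → K := fun s => W' (j0 + s) with hB
  set R : ℕ → Γ := fun s => r (i0 + s) with hR
  have hA0 : ∀ s, A s ≠ 0 := fun s => T.cyc.ne0 _
  have hB0 : ∀ s, B s ≠ 0 := fun s => T'.cyc.ne0 _
  have hRpos : ∀ s, 0 < R s := fun s => D.pos _
  have hR1 : ∀ s, R s < 1 := fun s => D.lt_one _
  have hAB : ∀ s, v (A s - B s) ≤ R s := fun s => (hpair s).2
  have hmx : ∀ s, mx v (A s) = mx v (B s) := fun s => mx_eq_of_close ((hAB s).trans_lt (hR1 s))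
  have hrhoAB : ∀ s, rho v (A s) (B s) ≤ R s / mx v (A s) ^ 2 := by
    intro s
    unfold rho
    rw [← hmx s, ← sq]
    exact div_le_div_of_nonneg_right (hAB s) (zero_le)
  -- the opposite situation
  have hopp : ∀ s s', rho v (A s) (A s')⁻¹ ≤
      max (R s / mx v (A s) ^ 2) (R s' / mx v (A s') ^ 2) →
      R s = R s' ∧ v (A s - A s') ≤ R s ∧ v (A s) = 1 ∧ v (A s') = 1 ∧
        v (A s ^ 2 - 1) = R s := by
    intro s s' h
    rcases le_total (R s' / mx v (A s') ^ 2) (R s / mx v (A s) ^ 2) with h1 | h1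
    · rw [max_eq_left h1] at h
      have h2 := close (hR1 s) h
      exact opp T D (inv_ne_zero (hA0 s')) h2 (by
        rw [inv_inv]
        show v (A s' - A s') ≤ _
        rw [sub_self, map_zero]
        exact zero_le)
    · rw [max_eq_right h1, ← rho_inv_left v (hA0 s) (hA0 s'), rho_comm] at h
      have h2 := close (hR1 s') h
      exact opp T D (hA0 s) (by
        show v (A s - A s) ≤ _
        rw [sub_self, map_zero]
        exact zero_le) h2
  -- the hole
  obtain ⟨s0, hs0, hhole⟩ : ∃ s0 < n, v (A s0) < 1 := by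
    obtain ⟨i, hi⟩ := T.II
    have hn := T.cyc.npos
    refine ⟨(i + n * i0 - i0) % n, Nat.mod_lt _ hn, ?_⟩
    have hle : i0 ≤ i + n * i0 := by
      calc i0 = 1 * i0 := (one_mul _).symm
        _ ≤ n * i0 := Nat.mul_le_mul_right _ hn
        _ ≤ i + n * i0 := Nat.le_add_left _ _
    have h1 := Nat.mod_add_div (i + n * i0 - i0) n
    have h2 : W (i0 + (i + n * i0 - i0) % n) = W i := by
      rw [← W_per T.cyc (i0 + (i + n * i0 - i0) % n) ((i + n * i0 - i0) / n), add_assoc, h1,
        ← W_per T.cyc i i0]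
      congr 1
      omega
    show v (W (i0 + (i + n * i0 - i0) % n)) < 1
    rw [h2]
    exact hi
  have hm := T'.cyc.npos
  have hn := T.cyc.npos
  have hs0' : s0 < n * m := lt_of_lt_of_le hs0 (Nat.le_mul_of_pos_right n hm)
  have hpsd := psd_main (v := v) hA0 hRpos hR1 (n * m) hs0' (by
    intro s' _ h
    have := hopp s0 s' (h.trans (le_max_left _ _))
    rw [this.2.2.1] at hhole
    exact lt_irrefl _ hhole)
  -- the comparison
  have hcmp : ∀ s s', v (A s - B s') / v (1 - A s * B s') ≤
      dd v A R (s, true) (s', true) / dd v A R (s, true) (s', false) := by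
    intro s s'
    have hMpos : 0 < mx v (A s) * mx v (B s') := mul_pos (mx_pos v _) (mx_pos v _)
    have hnum : rho v (A s) (B s') ≤ dd v A R (s, true) (s', true) := by
      rw [dd_tt]
      refine (rho_ultra v _ (A s') _).trans (max_le (le_max_left _ _) ?_)
      exact (hrhoAB s').trans ((le_max_right _ _).trans (le_max_right _ _))
    have hden : dd v A R (s, true) (s', false) ≤ rho v (A s) (B s')⁻¹ := by
      rw [dd_tf]
      rcases lt_or_ge (max (R s / mx v (A s) ^ 2) (R s' / mx v (A s') ^ 2))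
        (rho v (A s) (A s')⁻¹) with h | h
      · rw [max_eq_left h.le]
        have h1 := rho_ultra v (A s) (B s')⁻¹ (A s')⁻¹
        have h2 : rho v (B s')⁻¹ (A s')⁻¹ < rho v (A s) (A s')⁻¹ := by
          rw [rho_inv v (hB0 s') (hA0 s'), rho_comm]
          exact (hrhoAB s').trans_lt ((le_max_right _ _).trans_lt h)
        rcases le_max_iff.1 h1 with h3 | h3
        · exact h3
        · exact absurd h3 (not_le.2 h2)
      · obtain ⟨h1, h2, h3, h4, h5⟩ := hopp s s' h
        have m1 : mx v (A s) = 1 := by unfold mx; rw [h3, max_self]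
        have m2 : mx v (A s') = 1 := by unfold mx; rw [h4, max_self]
        rw [m1, m2, one_pow, div_one, div_one, ← h1, max_self] at h
        have hcross := Disc.cross v T T' D D' hne (s := s) (s' := s') (by
          show v (A s - B s') ≤ R s
          have e : A s - B s' = (A s - A s') + (A s' - B s') := by ring
          rw [e]
          refine (v.map_add _ _).trans (max_le h2 ?_)
          rw [h1]
          exact hAB s')
        have hcross' : v (1 - A s * B s') = R s := by
          rw [Valuation.map_sub_swap]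
          exact hcross.trans h5
        rw [m1, m2, one_pow, div_one, div_one, ← h1, max_self, max_eq_right h,
          rho_inv_right v _ (hB0 s'), hcross', m1, ← hmx s', m2, one_mul, div_one]
    have hdpos : 0 < dd v A R (s, true) (s', false) :=
      lt_of_lt_of_le (rad_pos hRpos s) ((le_max_left _ _).trans (le_max_right _ _))
    have e1 : v (A s - B s') / v (1 - A s * B s') =
        rho v (A s) (B s') / rho v (A s) (B s')⁻¹ := by
      rw [rho_inv_right v _ (hB0 s')]
      unfold rho
      rw [div_div_div_cancel_right₀ hMpos.ne']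
    rw [e1]
    exact div_le_div₀ (zero_le) hnum hdpos hden
  have hlt : ∏ s ∈ range (n * m), ∏ s' ∈ range (n * m), (v (A s - B s') / v (1 - A s * B s')) < 1 := by
    refine lt_of_le_of_lt ?_ hpsd
    apply Finset.prod_le_prod' 
    intro s _
    apply Finset.prod_le_prod'
    intro s' _
    exact hcmp s s'
  -- passage to the product over one period
  set F : ℕ → ℕ → Γ := fun i j => v (W i - W' j) / v (1 - W i * W' j) with hF
  have hin : ∀ s, ∏ s' ∈ range (n * m), (v (A s - B s') / v (1 - A s * B s')) =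
      (∏ j ∈ range m, F (i0 + s) j) ^ n := by
    intro s
    exact prod_periodic (fun j => F (i0 + s) j) m j0 n (fun j => by
      simp only [hF, T'.cyc.per])
  have hout : ∏ s ∈ range (n * m), (∏ j ∈ range m, F (i0 + s) j) ^ n =
      (∏ i ∈ range n, ∏ j ∈ range m, F i j) ^ (m * n) := by
    rw [Finset.prod_pow, mul_comm n m,
      prod_periodic (fun i => ∏ j ∈ range m, F i j) n i0 m (fun i => by
        simp only [hF, T.cyc.per]), ← pow_mul]
  simp only [hin] at hlt
  rw [hout] at hlt
  have hP : ∏ i ∈ range n, ∏ j ∈ range m, F i j < 1 :=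
    (pow_lt_one_iff_of_nonneg zero_le (Nat.mul_pos hm hn).ne').1 hlt
  have hprod := congrArg v (pair_prod T.cyc T'.cyc hne)
  simp only [map_mul, map_pow, map_prod, T.l1, T'.l1, one_pow, one_mul] at hprod
  have hEW : v (∏ i ∈ range n, ∏ j ∈ range m, EW (W i) (W' j)) =
      (∏ i ∈ range n, ∏ j ∈ range m, F i j) ^ 2 := by
    simp only [map_prod, EW, map_div₀, map_pow, map_mul, Finset.prod_div_distrib, hF]
    rw [← hprod]
    simp only [Finset.prod_pow, div_pow]
  rw [hEW]
  exact (pow_lt_one_iff_of_nonneg zero_le two_ne_zero).2 hP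

theorem II_II_close (T : TwoCyc v b c q n lam ε W) (T' : TwoCyc v b c q m lam' ε W') {j : ℕ}
    (hj : v (W' j) < 1) : ∃ i, v (W i - W' j) < v c ^ 2 := by
  obtain ⟨r, i0, D⟩ := disc_exists v T.ctx T.cz T.rot T.cyc T.l1 T.II T.e2 T.near
  obtain ⟨r', j0, D'⟩ := disc_exists v T'.ctx T'.cz T'.rot T'.cyc T'.l1 T'.II T'.e2 T'.near
  have hm := T'.cyc.npos
  have hle : j0 ≤ j + m * j0 := by
    calc j0 = 1 * j0 := (one_mul _).symm
      _ ≤ m * j0 := Nat.mul_le_mul_right _ hm
      _ ≤ j + m * j0 := Nat.le_add_left _ _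
  have e : j0 + (j + m * j0 - j0) = j + m * j0 := by omega
  obtain ⟨h1, h2⟩ := Disc.pair v T T' D D' (j + m * j0 - j0)
  rw [e, W_per T'.cyc] at h2
  rw [e] at h1
  refine ⟨_, lt_of_le_of_lt h2 ?_⟩
  rw [h1]
  exact D'.hole _ (by rw [W_per T'.cyc]; exact hj)

end D4

end Pool.Agent.helper56.P3
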