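import Pool.Agent.helper56.P3.RepN
import Pool.Agent.helper88.P3.PolyId
import Pool.Agent.helper96.P3.Gauss

/-!
# P3, module H10: the gaps of the second cycle at Gauss-type valuations
-/

namespace Pool.Agent.helper56.P3

open Finset Pool.Agent.helper56.Per

namespace H10aux

section Gaps

variable {K : Type*} [Field K] {b c : K} {n : ℕ} {lam : K} {W : ℕ → K}
variable {Γ : Type*} [LinearOrderedCommGroupWithZero Γ] {v : Valuation K Γ}

theorem W_per (h : WCyc b c n lam W) (i l : ℕ) : W (i + n * l) = W i := by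
  induction l with
  | zero => simp
  | succ l ih => rw [mul_add, mul_one, ← add_assoc, h.per, ih]

theorem W_mod (h : WCyc b c n lam W) (i l : ℕ) : W (i % n + l) = W (i + l) := by
  have h1 := Nat.mod_add_div i n
  have h2 : i + l = i % n + l + n * (i / n) := by omega
  rw [h2, W_per h]

theorem exists_gapfun (h : WCyc b c n lam W) :
    ∃ g : ℕ → ℕ, ∀ i, v (W i) ≤ 1 → IsGap v W i (g i) := by
  classical
  have h1 : ∀ i, ∃ s, v (W i) ≤ 1 → IsGap v W i s := by
    intro i
    by_cases hi : v (W i) ≤ 1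
    · obtain ⟨s, hs, -⟩ := WCyc.exists_gap v h hi i
      exact ⟨s, fun _ => hs⟩
    · exact ⟨0, fun h => absurd h hi⟩
  choose g hg using h1
  exact ⟨g, hg⟩

theorem pow_sub_lt {x y : K} (hx : v x ≤ 1) (hy : v y ≤ 1) (h : v (x - y) < 1) (j : ℕ) :
    v (x ^ j - y ^ j) < 1 := by
  induction j with
  | zero => simp
  | succ j ih =>
    have e : x ^ (j + 1) - y ^ (j + 1) = x ^ j * (x - y) + (x ^ j - y ^ j) * y := by ring
    rw [e]
    apply Valuation.map_add_lt
    · rw [map_mul, map_pow]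
      exact lt1_of_le_of_lt (pow_le_one' hx j) h
    · rw [map_mul]
      exact lt1_of_lt_of_le ih hy

end Gaps

section Poly

variable {k K : Type*} [Field k] [Field K] [Algebra k K]

/-- a congruence at a Gauss-type valuation gives a polynomial identity over the residue field -/
theorem poly_of_congr {O : ValuationSubring k} {b : K} {ν : ValuationSubring K}
    (hrt : RT O b ν) (P : Polynomial O)
    (hP : ν.valuation (Polynomial.aeval b (P.map (algebraMap O k))) < 1) :
    P.map (IsLocalRing.residue O) = 0 := by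
  ext i
  rw [Polynomial.coeff_map, Polynomial.coeff_zero, IsLocalRing.residue_eq_zero_iff,
    ValuationSubring.valuation_lt_one_iff]
  by_contra hne
  have hle : ∀ j, O.valuation ((P.map (algebraMap O k)).coeff j) ≤ 1 := by
    intro j
    rw [Polynomial.coeff_map]
    exact O.valuation_le_one _
  have h1 := hrt (P.map (algebraMap O k)) hle ⟨i, by
    apply le_antisymm (hle i)
    rw [Polynomial.coeff_map]
    exact not_lt.1 hne⟩
  rw [h1] at hP
  exact lt_irrefl _ hP

theorem charTwo_res {O : ValuationSubring k} (h2 : O.valuation 2 < 1) :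
    CharP (IsLocalRing.ResidueField O) 2 := by
  apply CharTwo.of_one_ne_zero_of_two_eq_zero one_ne_zero
  have h : IsLocalRing.residue O (2 : O) = 0 := by
    rw [IsLocalRing.residue_eq_zero_iff, ValuationSubring.valuation_lt_one_iff]
    exact h2
  rwa [map_ofNat] at h

end Poly

end H10aux

open H10aux

section H6

variable {k K : Type*} [Field k] [Field K] [Algebra k K] [IsAlgClosed k] [IsAlgClosed K]
  [CharZero k] [Algebra.IsAlgebraic ℚ k] {n m : ℕ} {lam lam' : k} {a b x3 c : K} {W W' : ℕ → K}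
  {O : ValuationSubring k} {g : K} {ν0 : ValuationSubring K} {q0 L : ℕ}

/-- V12: all gaps of `W'` at Gauss-type valuations are `q0 2^u` -/
theorem rep_gapsY (G : Glob n m lam lam' a b x3 c W W') (R : Rep O g ν0 b c q0 L W W')
    (hl : 1 < O.valuation lam) {ν : ValuationSubring K} (hν : IsGauss O g ν0 ν) {j s : ℕ}
    (hj : ν.valuation (W' j) ≤ 1) (hs : IsGap ν.valuation W' j s) : ∃ u, s = q0 * 2 ^ u := by
  obtain ⟨hn, hone⟩ := rep_n G R hl
  obtain ⟨i0, hi0, huniq⟩ := hone ν hν
  have Gc : GCtx ν.valuation b c := R.gctx ν hν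
  have hE := hν.ext
  have hrtb := R.rtb ν hν
  set v := ν.valuation with hv
  have hnpos := G.hW.npos
  have hmpos := G.hW'.npos
  have hL : 1 < v (algebraMap k K lam) := (hE.one_lt_iff _).2 hl
  have hl0 : lam ≠ 0 := G.l0
  have hL0 : algebraMap k K lam ≠ 0 := (_root_.map_ne_zero _).2 hl0
  obtain ⟨gW, hgW⟩ := exists_gapfun (v := v) G.hW
  obtain ⟨gY, hgY⟩ := exists_gapfun (v := v) G.hW'
  -- the holes of W
  have hfilt : ({i ∈ range n | v (W i) ≤ 1} : Finset ℕ) = {i0 % n} := by
    ext i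
    simp only [Finset.mem_filter, Finset.mem_range, Finset.mem_singleton]
    constructor
    · rintro ⟨h1, h2⟩
      rw [← huniq i h2, Nat.mod_eq_of_lt h1]
    · rintro rfl
      refine ⟨Nat.mod_lt _ hnpos, ?_⟩
      have := W_mod G.hW i0 0
      rw [add_zero, add_zero] at this
      rw [this]
      exact hi0
  have hgn := gap_sum v G.hW gW hgW ⟨i0, hi0⟩
  rw [hfilt, Finset.sum_singleton] at hgn
  obtain ⟨hW1, hW2⟩ := G_prod v Gc G.hW gW hgW
  rw [hfilt, Finset.card_singleton, mul_one] at hW1 hW2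
  rw [Finset.prod_singleton, hgn] at hW2
  obtain ⟨hY1, hY2⟩ := G_prod v Gc G.hW' gY hgY
  set S : Finset ℕ := {i ∈ range m | v (W' i) ≤ 1} with hS
  set H := #S with hH
  -- m = H n
  have hlarge := two_large G.ts G.hs O hl
  have hlarge' : v (algebraMap k K lam) ^ m = v (algebraMap k K lam') ^ n := by
    rw [← map_pow, ← map_pow] at hlarge
    rw [← map_pow, ← map_pow, ← map_pow, ← map_pow]
    apply le_antisymm
    · rw [hE.le_iff]; exact hlarge.le
    · rw [hE.le_iff]; exact hlarge.ge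
  have hvc0 : v c ≠ 0 := (v.ne_zero_iff).2 Gc.c0
  have hlam' : v (algebraMap k K lam') = v (algebraMap k K lam) ^ H := by
    have h1 : v (algebraMap k K lam) = (v c ^ 2)⁻¹ := eq_inv_of_mul_eq_one_left hW1
    have h2 : v (algebraMap k K lam') = (v c ^ (2 * H))⁻¹ := eq_inv_of_mul_eq_one_left hY1
    rw [h1, h2, inv_pow, pow_mul]
  have hmH : m = H * n := by
    rw [hlam', ← pow_mul] at hlarge'
    exact pow_inj_gt hL hlarge'
  -- the ratio
  set κ : k := lam' / lam ^ H with hκ
  have hκv : v (algebraMap k K κ) = 1 := by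
    rw [hκ, map_div₀, map_div₀, map_pow, map_pow, hlam', div_self]
    exact pow_ne_zero _ ((v.ne_zero_iff).2 hL0)
  have hκO : O.valuation κ = 1 := (hE.eq_one_iff κ).1 hκv
  have hκmem : κ ∈ O := (ValuationSubring.valuation_le_one_iff O κ).1 hκO.le
  have hb1 : ∀ i, 0 < i → v (1 - b ^ i) = 1 := by
    intro i hi
    rw [Valuation.map_sub_swap]
    exact Gc.one i hi
  have hu1 : v (-(1 - b ^ n) ^ 2) = 1 := by
    rw [Valuation.map_neg, map_pow, hb1 n hnpos, one_pow]
  have hu2 : v (algebraMap k K lam * b ^ n * c ^ 2) = 1 := v_eq_one_of_sub hW2 hu1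
  have hpow := pow_sub_lt hu2.le hu1.le hW2 H
  have hmul : v (algebraMap k K κ * (algebraMap k K lam * b ^ n * c ^ 2) ^ H -
      algebraMap k K κ * (-(1 - b ^ n) ^ 2) ^ H) < 1 := by
    rw [← mul_sub, map_mul, hκv, one_mul]
    exact hpow
  have e1 : algebraMap k K κ * (algebraMap k K lam * b ^ n * c ^ 2) ^ H =
      algebraMap k K lam' * b ^ m * c ^ (2 * H) := by
    rw [mul_pow, mul_pow, ← pow_mul b, ← pow_mul c, mul_comm n H, ← hmH, hκ, map_div₀, map_pow]
    have : algebraMap k K lam ^ H ≠ 0 := pow_ne_zero _ hL0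
    field_simp
  rw [e1] at hmul
  have hdiff : v (algebraMap k K κ * (-(1 - b ^ n) ^ 2) ^ H -
      ∏ i ∈ S, (-(1 - b ^ gY i) ^ 2)) < 1 := by
    have e2 : algebraMap k K κ * (-(1 - b ^ n) ^ 2) ^ H - ∏ i ∈ S, (-(1 - b ^ gY i) ^ 2) =
        (algebraMap k K lam' * b ^ m * c ^ (2 * H) - ∏ i ∈ S, (-(1 - b ^ gY i) ^ 2)) -
        (algebraMap k K lam' * b ^ m * c ^ (2 * H) -
          algebraMap k K κ * (-(1 - b ^ n) ^ 2) ^ H) := by ring
    rw [e2]
    exact (v.map_sub _ _).trans_lt (max_lt hY2 hmul)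
  have hdiff' : v (algebraMap k K κ * ((b ^ n - 1) ^ 2) ^ H -
      ∏ i ∈ S, (b ^ gY i - 1) ^ 2) < 1 := by
    have e3 : ∏ i ∈ S, (-(1 - b ^ gY i) ^ 2) = (-1) ^ H * ∏ i ∈ S, (b ^ gY i - 1) ^ 2 := by
      rw [hH, ← Finset.prod_const, ← Finset.prod_mul_distrib]
      apply Finset.prod_congr rfl
      intro i _
      ring
    have e4 : (-(1 - b ^ n) ^ 2) ^ H = (-1) ^ H * ((b ^ n - 1) ^ 2) ^ H := by
      rw [← mul_pow]
      congr 1
      ring
    rw [e3, e4] at hdiff
    have e5 : algebraMap k K κ * ((-1) ^ H * ((b ^ n - 1) ^ 2) ^ H) -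
        (-1) ^ H * ∏ i ∈ S, (b ^ gY i - 1) ^ 2 =
        (-1) ^ H * (algebraMap k K κ * ((b ^ n - 1) ^ 2) ^ H - ∏ i ∈ S, (b ^ gY i - 1) ^ 2) := by
      ring
    rw [e5, map_mul, map_pow, Valuation.map_neg, map_one, one_pow, one_mul] at hdiff
    exact hdiff
  -- the polynomial
  let P : Polynomial O := Polynomial.C ⟨κ, hκmem⟩ * ((Polynomial.X ^ n - 1) ^ 2) ^ H -
    ∏ i ∈ S, (Polynomial.X ^ gY i - 1) ^ 2
  have hPeval : Polynomial.aeval b (P.map (algebraMap O k)) =
      algebraMap k K κ * ((b ^ n - 1) ^ 2) ^ H - ∏ i ∈ S, (b ^ gY i - 1) ^ 2 := by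
    simp only [P, Polynomial.map_sub, Polynomial.map_mul, Polynomial.map_pow, Polynomial.map_C,
      Polynomial.map_X, Polynomial.map_one, Polynomial.map_prod, map_sub, map_mul, map_pow,
      map_prod, Polynomial.aeval_C, Polynomial.aeval_X, map_one]
    rfl
  have hres := poly_of_congr hrtb P (by rw [hPeval]; exact hdiff')
  have := charTwo_res R.h2
  have hres0 : IsLocalRing.residue O ⟨κ, hκmem⟩ ≠ 0 := by
    rw [Ne, IsLocalRing.residue_eq_zero_iff, ValuationSubring.valuation_lt_one_iff]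
    intro h
    exact absurd hκO h.ne
  have hid : Polynomial.C (IsLocalRing.residue O ⟨κ, hκmem⟩)⁻¹ *
      ∏ i ∈ S, ((Polynomial.X : Polynomial (IsLocalRing.ResidueField O)) ^ gY i - 1) ^ 2
      = ((Polynomial.X ^ (q0 * 2 ^ L) - 1) ^ 2) ^ #S := by
    simp only [P, Polynomial.map_sub, Polynomial.map_mul, Polynomial.map_pow, Polynomial.map_C,
      Polynomial.map_X, Polynomial.map_one, Polynomial.map_prod] at hres
    rw [← sub_eq_zero.1 hres, ← mul_assoc, ← Polynomial.C_mul, inv_mul_cancel₀ hres0,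
      Polynomial.C_1, one_mul, hn]
  have hodd : Odd q0 := (R.dctx ν0 (dom_self R.base)).odd
  have hfin := poly_id hodd S gY (fun i hi => by
    rw [hS, Finset.mem_filter] at hi
    exact (hgY i hi.2).1) (inv_ne_zero hres0) hid
  -- back to `j`
  have hj' : v (W' (j % m)) ≤ 1 := by
    have := W_mod G.hW' j 0
    rw [add_zero, add_zero] at this
    rw [this]
    exact hj
  have hjS : j % m ∈ S := by
    rw [hS, Finset.mem_filter, Finset.mem_range]
    exact ⟨Nat.mod_lt _ hmpos, hj'⟩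
  have hgap : IsGap v W' (j % m) s := by
    refine ⟨hs.1, ?_, ?_⟩
    · rw [W_mod G.hW']; exact hs.2.1
    · intro l h1 h2
      rw [W_mod G.hW']
      exact hs.2.2 l h1 h2
  have := IsGap.unique v hgap (hgY _ hj')
  rw [this]
  exact hfin _ hjS

end H6

end Pool.Agent.helper56.P3
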